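import Pool.Agent.MP42.K.Genus

/-!
# From the Euler characteristic to the homology (owner helper86)

If the surface is connected and `V - E + F = 2` (`V` = number of cycles of `pK`, `E = 2 F`), then
every even set of unit edges is the boundary of a set of facets.
-/

set_option autoImplicit false
set_option linter.unusedSectionVars false

namespace Pool.Agent.MP42NG

open Pool.Agent.Helper55.UNF Pool.Agent.Helper55.UNF.GridSolid Pool.Agent.MP42G
open Pool.Agent.MP42K

variable {P : GridSolid}

/-- the vertices: cycles of the rotation around the north-east corner -/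
abbrev Vt (P : GridSolid) := Quotient (Equiv.Perm.SameCycle.setoid (pK : Equiv.Perm P.FSt))

noncomputable instance : Fintype (Vt P) := Fintype.ofFinite _
noncomputable instance : Fintype P.Facet := Fintype.ofFinite _
noncomputable instance : Fintype P.FSt := Fintype.ofFinite _
noncomputable instance : DecidableEq (Vt P) := Classical.decEq _

/-- the vertex of a state -/
def vt (s : P.FSt) : Vt P := Quotient.mk _ s

lemma vt_iff {s t : P.FSt} : vt s = vt t ↔ pK.SameCycle s t := Quotient.eq

lemma vt_pK (s : P.FSt) : vt (pK s) = vt s :=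
  vt_iff.2 ((Equiv.Perm.sameCycle_apply_left (f := pK)).2 (Equiv.Perm.SameCycle.refl _ _))

/-- the other description of the east edge -/
def rho (s : P.FSt) : P.FSt := s.stE.r2

lemma rho_rho (s : P.FSt) : rho (rho s) = s := by
  show s.stE.r2.stE.r2 = s
  rw [FSt.stE_inv, FSt.r2_r2]

lemma rho_n (s : P.FSt) : (rho s).1.n = opp s.1.n := by
  show s.stE.r2.1.n = _
  rw [MP42.Geo.r2_n, MP42.Geo.stE_n]

/-- everything is connected -/
lemma fst_conn (hP : P.IsOrthogonalPolyhedron) (ψ : P.FSt → Prop)
    (h1 : ∀ s, ψ s.rL ↔ ψ s) (h2 : ∀ s, ψ s.stE ↔ ψ s) (s t : P.FSt) : ψ s ↔ ψ t := by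
  have hr2 : ∀ s : P.FSt, ψ s.r2 ↔ ψ s := fun s => by rw [← FSt.rL_rL, h1, h1]
  have hrR : ∀ s : P.FSt, ψ s.rR ↔ ψ s := fun s => by rw [← FSt.rL_r2, hr2, h1]
  have hf : ∀ s t : P.FSt, s.facet = t.facet → (ψ s ↔ ψ t) := by
    intro s t h
    rcases rot4 h with e | e | e | e
    · rw [e]
    · rw [e, hr2]
    · rw [e]; exact hrR t
    · rw [e]; exact h1 t
  have hw : ∀ f g : P.Facet, P.surfaceGraph.Reachable f g → ∀ s t : P.FSt, s.facet = f →
      t.facet = g → (ψ s ↔ ψ t) := by
    intro f g h
    obtain ⟨w⟩ := h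
    induction w with
    | nil => intro s t hs ht; exact hf s t (hs.trans ht.symm)
    | @cons a b c hab w ih =>
      intro s t hs ht
      obtain ⟨u, hu1, hu2⟩ := MP42.Geo.exists_state_of_adj hP.1 hab
      rw [hf s u (hs.trans hu1.symm), ← h2 u]
      exact ih u.stE t hu2 ht
  exact hw _ _ (hP.2.preconnected s.facet t.facet) s t rfl rfl

/-! ## Chains over the field with two elements -/

abbrev F2 := ZMod 2

lemma z2 (x : F2) : x + x = 0 := CharTwo.add_self_eq_zero x

variable (P) in
/-- the chains: functions on the edges -/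
noncomputable def C1 : Submodule F2 (P.FSt → F2) where
  carrier := {e | ∀ s, e (rho s) = e s}
  add_mem' := fun {a b} ha hb s => by
    show a (rho s) + b (rho s) = a s + b s
    rw [ha s, hb s]
  zero_mem' := fun s => rfl
  smul_mem' := fun c a ha s => by
    show c • a (rho s) = c • a s
    rw [ha s]

lemma mem_C1 {e : P.FSt → F2} : e ∈ C1 P ↔ ∀ s, e (rho s) = e s := Iff.rfl

variable (P) in
/-- boundary of an edge -/
noncomputable def d1 : (P.FSt → F2) →ₗ[F2] (Vt P → F2) where
  toFun := fun e v => ∑ t : P.FSt, if vt t = v then e t else 0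
  map_add' := fun a b => by
    funext v
    show ∑ t : P.FSt, (if vt t = v then a t + b t else 0) = _ + _
    rw [← Finset.sum_add_distrib]
    refine Finset.sum_congr rfl fun t _ => ?_
    split_ifs <;> simp
  map_smul' := fun c a => by
    funext v
    show ∑ t : P.FSt, (if vt t = v then c • a t else 0) = c • _
    rw [Finset.smul_sum]
    refine Finset.sum_congr rfl fun t _ => ?_
    split_ifs <;> simp

lemma d1_apply (e : P.FSt → F2) (v : Vt P) :
    d1 P e v = ∑ t : P.FSt, if vt t = v then e t else 0 := rfl

variable (P) in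
/-- boundary of a facet -/
noncomputable def d2 : (P.Facet → F2) →ₗ[F2] (P.FSt → F2) where
  toFun := fun f s => f s.facet + f s.stE.facet
  map_add' := fun a b => by
    funext s
    show a _ + b _ + (a _ + b _) = a _ + a _ + (b _ + b _)
    ring
  map_smul' := fun c a => by
    funext s
    show c • a _ + c • a _ = c • (a _ + a _)
    rw [smul_add]

lemma d2_apply (f : P.Facet → F2) (s : P.FSt) : d2 P f s = f s.facet + f s.stE.facet := rfl

lemma d2_mem (f : P.Facet → F2) : d2 P f ∈ C1 P := by
  intro s
  rw [d2_apply, d2_apply]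
  show f s.stE.r2.facet + f s.stE.r2.stE.facet = _
  rw [FSt.stE_inv, FSt.facet_r2, FSt.facet_r2, add_comm]

lemma d1_d2 (f : P.Facet → F2) : d1 P (d2 P f) = 0 := by
  funext v
  rw [d1_apply]
  have h1 : ∀ t : P.FSt, (if vt t = v then d2 P f t else 0) =
      (if vt t = v then f t.facet else 0) + (if vt (pK t) = v then f (pK t).facet else 0) := by
    intro t
    rw [vt_pK, d2_apply]
    split_ifs <;> simp [pK_apply]
  rw [Finset.sum_congr rfl fun t _ => h1 t, Finset.sum_add_distrib,
    Equiv.sum_comp (pK : Equiv.Perm P.FSt) (fun t => if vt t = v then f t.facet else 0)]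
  exact z2 _

/-! ## Dimensions -/

lemma card_FSt : Fintype.card P.FSt = 4 * Fintype.card P.Facet := by
  have e : P.FSt ≃ Σ f : P.Facet, {e : Dir // f.1.2.1 ≠ e.1} :=
    { toFun := fun s => ⟨s.facet, ⟨s.1.e, s.2.2⟩⟩
      invFun := fun x => ⟨⟨x.1.1.1, x.1.1.2, x.2.1⟩, x.1.2, x.2.2⟩
      left_inv := fun s => rfl
      right_inv := fun x => rfl }
  rw [Fintype.card_congr e, Fintype.card_sigma]
  have h : ∀ a : Fin 3, Fintype.card {e : Dir // a ≠ e.1} = 4 := by decide
  rw [Finset.sum_congr rfl fun f _ => h f.1.2.1, Finset.sum_const, Finset.card_univ]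
  simp [mul_comm]

/-- the map whose kernel and whose range are the chains -/
noncomputable def dl : (P.FSt → F2) →ₗ[F2] (P.FSt → F2) where
  toFun := fun e s => e s + e (rho s)
  map_add' := fun a b => by
    funext s
    show a _ + b _ + (a _ + b _) = a _ + a _ + (b _ + b _)
    ring
  map_smul' := fun c a => by
    funext s
    show c • a _ + c • a _ = c • (a _ + a _)
    rw [smul_add]

lemma ker_dl : LinearMap.ker (dl (P := P)) = C1 P := by
  ext e
  rw [LinearMap.mem_ker, mem_C1]
  constructor
  · intro h s
    have h1 : e s + e (rho s) = 0 := congrFun h s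
    exact (CharTwo.add_eq_zero.1 h1).symm
  · intro h
    funext s
    show e s + e (rho s) = 0
    rw [h s]; exact z2 _

lemma range_dl : LinearMap.range (dl (P := P)) = C1 P := by
  ext e
  constructor
  · rintro ⟨f, rfl⟩ s
    show f (rho s) + f (rho (rho s)) = f s + f (rho s)
    rw [rho_rho, add_comm]
  · intro h
    refine ⟨fun s => if s.1.n.2 = true then e s else 0, ?_⟩
    funext s
    show (if s.1.n.2 = true then e s else 0) + (if (rho s).1.n.2 = true then e (rho s) else 0) = e s
    rw [rho_n, h s]
    have : (opp s.1.n).2 = !s.1.n.2 := rfl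
    rw [this]
    cases s.1.n.2 <;> simp

lemma finrank_C1 : Module.finrank F2 (C1 P) = 2 * Fintype.card P.Facet := by
  have h := LinearMap.finrank_range_add_finrank_ker (dl (P := P))
  rw [range_dl, ker_dl, Module.finrank_fintype_fun_eq_card, card_FSt] at h
  omega

lemma finrank_range_d2 (hP : P.IsOrthogonalPolyhedron) :
    Fintype.card P.Facet ≤ Module.finrank F2 (LinearMap.range (d2 P)) + 1 := by
  have h := LinearMap.finrank_range_add_finrank_ker (d2 P)
  rw [Module.finrank_fintype_fun_eq_card] at h
  have h1 : LinearMap.ker (d2 P) ≤ Submodule.span F2 {(fun _ => 1 : P.Facet → F2)} := by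
    intro f hf
    rw [LinearMap.mem_ker] at hf
    have h2 : ∀ s : P.FSt, f s.stE.facet = f s.facet := by
      intro s
      have h3 : f s.facet + f s.stE.facet = 0 := congrFun hf s
      exact (CharTwo.add_eq_zero.1 h3).symm
    obtain ⟨f0⟩ := hP.2.nonempty
    rw [Submodule.mem_span_singleton]
    refine ⟨f f0, ?_⟩
    funext g
    show f f0 • (1 : F2) = f g
    have h4 := (fst_conn hP (fun s => f s.facet = f f0) (fun s => Iff.rfl)
      (fun s => by show f s.stE.facet = _ ↔ _; rw [h2]) (MP42.can f0) (MP42.can g)).1 rfl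
    rw [smul_eq_mul, mul_one]
    exact h4.symm
  have h2 := Submodule.finrank_mono h1
  have h3 : Module.finrank F2 (Submodule.span F2 {(fun _ => 1 : P.Facet → F2)}) ≤ 1 :=
    finrank_span_le_card _ |>.trans (by simp)
  omega

lemma d1_edge (s : P.FSt) : d1 P (fun t => if t = s ∨ t = rho s then 1 else 0) =
    (Pi.single (vt s) 1 : Vt P → F2) + Pi.single (vt (rho s)) 1 := by
  classical
  have hne : rho s ≠ s := by
    intro h
    have h1 := rho_n s
    rw [h] at h1
    have h2 : (opp s.1.n).2 = !s.1.n.2 := rfl
    rw [← h1] at h2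
    cases hb : s.1.n.2 <;> rw [hb] at h2 <;> simp at h2
  funext v
  rw [d1_apply, Pi.add_apply]
  have h1 : ∀ t : P.FSt, (if vt t = v then (if t = s ∨ t = rho s then (1 : F2) else 0) else 0) =
      (if t = s then (if vt s = v then 1 else 0) else 0) +
      (if t = rho s then (if vt (rho s) = v then 1 else 0) else 0) := by
    intro t
    by_cases a : t = s
    · subst a
      simp [hne.symm]
    · by_cases b : t = rho s
      · subst b
        simp [hne]
      · simp [a, b]
  rw [Finset.sum_congr rfl fun t _ => h1 t, Finset.sum_add_distrib, Finset.sum_ite_eq',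
    Finset.sum_ite_eq']
  simp only [Finset.mem_univ, if_true, Pi.single_apply, eq_comm]

lemma finrank_map_d1 (hP : P.IsOrthogonalPolyhedron) :
    Fintype.card (Vt P) ≤ Module.finrank F2 (Submodule.map (d1 P) (C1 P)) + 1 := by
  classical
  obtain ⟨f0⟩ := hP.2.nonempty
  set s0 : P.FSt := MP42.can f0
  set R := Submodule.map (d1 P) (C1 P) with hR
  have hedge : ∀ s : P.FSt, (Pi.single (vt s) 1 : Vt P → F2) + Pi.single (vt (rho s)) 1 ∈ R := by
    intro s
    rw [hR, Submodule.mem_map]
    refine ⟨_, ?_, d1_edge s⟩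
    intro t
    show (if rho t = s ∨ rho t = rho s then (1 : F2) else 0) = if t = s ∨ t = rho s then 1 else 0
    have h1 : rho t = s ↔ t = rho s := by
      constructor
      · rintro rfl; rw [rho_rho]
      · rintro rfl; rw [rho_rho]
    have h2 : rho t = rho s ↔ t = s := by
      constructor
      · intro h; rw [← rho_rho t, h, rho_rho]
      · rintro rfl; rfl
    have h3 : (rho t = s ∨ rho t = rho s) ↔ (t = s ∨ t = rho s) := by rw [h1, h2, or_comm]
    exact if_congr h3 rfl rfl
  have key : ∀ s : P.FSt, (Pi.single (vt s) 1 : Vt P → F2) + Pi.single (vt s0) 1 ∈ R := by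
    have e1 : ∀ s : P.FSt, vt (rho s) = vt (rho s) := fun s => rfl
    have a1 : ∀ s : P.FSt, ((Pi.single (vt (pK s)) 1 : Vt P → F2) + Pi.single (vt s0) 1 ∈ R ↔
        (Pi.single (vt s) 1 : Vt P → F2) + Pi.single (vt s0) 1 ∈ R) := fun s => by rw [vt_pK]
    have a2 : ∀ s : P.FSt, ((Pi.single (vt (rho s)) 1 : Vt P → F2) + Pi.single (vt s0) 1 ∈ R ↔
        (Pi.single (vt s) 1 : Vt P → F2) + Pi.single (vt s0) 1 ∈ R) := by
      intro s
      have h1 := hedge s
      constructor
      · intro h2
        have h3 := R.add_mem h1 h2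
        have h4 : (Pi.single (vt s) 1 : Vt P → F2) + Pi.single (vt (rho s)) 1 +
            (Pi.single (vt (rho s)) 1 + Pi.single (vt s0) 1) =
            Pi.single (vt s) 1 + Pi.single (vt s0) 1 := by
          funext v
          simp only [Pi.add_apply]
          have := z2 ((Pi.single (vt (rho s)) 1 : Vt P → F2) v)
          linear_combination this
        rwa [h4] at h3
      · intro h2
        have h3 := R.add_mem h1 h2
        have h4 : (Pi.single (vt s) 1 : Vt P → F2) + Pi.single (vt (rho s)) 1 +
            (Pi.single (vt s) 1 + Pi.single (vt s0) 1) =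
            Pi.single (vt (rho s)) 1 + Pi.single (vt s0) 1 := by
          funext v
          simp only [Pi.add_apply]
          have := z2 ((Pi.single (vt s) 1 : Vt P → F2) v)
          linear_combination this
        rwa [h4] at h3
    have a3 : ∀ x : P.FSt, ((Pi.single (vt x.rL) 1 : Vt P → F2) + Pi.single (vt s0) 1 ∈ R ↔
        (Pi.single (vt x) 1 : Vt P → F2) + Pi.single (vt s0) 1 ∈ R) := by
      -- `pK s = (stE s).rL`, `rho s = (stE s).rL.rL`
      have a4 : ∀ x : P.FSt, ((Pi.single (vt x.rL.rL) 1 : Vt P → F2) + Pi.single (vt s0) 1 ∈ R ↔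
          (Pi.single (vt x.rL) 1 : Vt P → F2) + Pi.single (vt s0) 1 ∈ R) := by
        intro x
        have h1 := a1 (pE.symm x)
        have h2 := a2 (pE.symm x)
        have h3 : pK (pE.symm x) = x.rL := by
          show (pE (pE.symm x)).rL = x.rL
          rw [Equiv.apply_symm_apply]
        have h4 : rho (pE.symm x) = x.rL.rL := by
          show (pE (pE.symm x)).r2 = _
          rw [Equiv.apply_symm_apply, FSt.rL_rL]
        rw [h3] at h1
        rw [h4] at h2
        rw [h1, h2]
      intro x
      have := a4 x.rR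
      rwa [FSt.rR_rL] at this
    intro s
    refine (fst_conn hP (fun s => (Pi.single (vt s) 1 : Vt P → F2) + Pi.single (vt s0) 1 ∈ R) a3 ?_
      s s0).2 ?_
    · intro s
      have h1 := a1 s
      have h2 := a3 s.stE
      show (Pi.single (vt s.stE) 1 : Vt P → F2) + Pi.single (vt s0) 1 ∈ R ↔ _
      rw [← h2]
      exact h1
    · have : (Pi.single (vt s0) 1 : Vt P → F2) + Pi.single (vt s0) 1 = 0 := by
        funext v
        exact z2 _
      rw [this]
      exact R.zero_mem
  have htop : (⊤ : Submodule F2 (Vt P → F2)) ≤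
      R ⊔ Submodule.span F2 {(Pi.single (vt s0) 1 : Vt P → F2)} := by
    intro g _
    have h1 : g = ∑ v : Vt P, g v • (Pi.single v 1 : Vt P → F2) := by
      funext w
      simp [Finset.sum_apply, Pi.single_apply]
    rw [h1]
    refine Submodule.sum_mem _ fun v _ => Submodule.smul_mem _ _ ?_
    obtain ⟨s, rfl⟩ := Quotient.exists_rep v
    have h2 := key s
    have h3 : (Pi.single (vt s) 1 : Vt P → F2) =
        (Pi.single (vt s) 1 + Pi.single (vt s0) 1) + Pi.single (vt s0) 1 := by
      funext v
      simp only [Pi.add_apply]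
      have := z2 ((Pi.single (vt s0) 1 : Vt P → F2) v)
      linear_combination -this
    show (Pi.single (vt s) 1 : Vt P → F2) ∈ _
    rw [h3]
    exact Submodule.add_mem _ (Submodule.mem_sup_left h2)
      (Submodule.mem_sup_right (Submodule.mem_span_singleton_self _))
  have h1 := Submodule.finrank_mono htop
  rw [finrank_top, Module.finrank_fintype_fun_eq_card] at h1
  have h2 := Submodule.finrank_add_le_finrank_add_finrank R
    (Submodule.span F2 {(Pi.single (vt s0) 1 : Vt P → F2)})
  have h3 : Module.finrank F2 (Submodule.span F2 {(Pi.single (vt s0) 1 : Vt P → F2)}) ≤ 1 :=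
    finrank_span_le_card _ |>.trans (by simp)
  omega

/-- cycles are boundaries -/
lemma cycle_bd (hP : P.IsOrthogonalPolyhedron)
    (h : Fintype.card (Vt P) = Fintype.card P.Facet + 2) :
    C1 P ⊓ LinearMap.ker (d1 P) = LinearMap.range (d2 P) := by
  symm
  apply Submodule.eq_of_le_of_finrank_le
  · rintro _ ⟨f, rfl⟩
    exact ⟨d2_mem f, d1_d2 f⟩
  · have h1 := LinearMap.finrank_range_add_finrank_ker ((d1 P).domRestrict (C1 P))
    have h2 : LinearMap.range ((d1 P).domRestrict (C1 P)) = Submodule.map (d1 P) (C1 P) := by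
      rw [LinearMap.domRestrict, LinearMap.range_comp, Submodule.range_subtype]
    have h3 : Module.finrank F2 (LinearMap.ker ((d1 P).domRestrict (C1 P))) =
        Module.finrank F2 (C1 P ⊓ LinearMap.ker (d1 P) : Submodule F2 (P.FSt → F2)) := by
      rw [LinearMap.domRestrict, LinearMap.ker_comp]
      rw [← Submodule.map_comap_subtype]
      exact (LinearEquiv.finrank_eq (Submodule.equivMapOfInjective _
        (C1 P).injective_subtype _))
    rw [h2, h3, finrank_C1] at h1
    have h4 := finrank_map_d1 hP
    have h5 := finrank_range_d2 hP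
    omega

/-- **(S3)** Euler characteristic two implies that even sets bound. -/
theorem genusZero_of_card (hP : P.IsOrthogonalPolyhedron)
    (h : Nat.card (Vt P) = Nat.card P.Facet + 2) : GenusZero P := by
  classical
  intro e he hev
  rw [Nat.card_eq_fintype_card, Nat.card_eq_fintype_card] at h
  have h1 := cycle_bd hP h
  have h2 : (fun s => if e s then (1 : F2) else 0) ∈ C1 P ⊓ LinearMap.ker (d1 P) := by
    refine ⟨?_, ?_⟩
    · intro s
      show (if e (rho s) then (1 : F2) else 0) = if e s then 1 else 0
      have : e (rho s) ↔ e s := he s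
      simp only [this]
    · show d1 P _ = 0
      funext v
      obtain ⟨s, rfl⟩ := Quotient.exists_rep v
      rw [d1_apply]
      have h3 : ∀ t : P.FSt, (if vt t = Quotient.mk _ s then (if e t then (1 : F2) else 0) else 0) =
          if (pK.SameCycle s t ∧ e t) then 1 else 0 := by
        intro t
        have : vt t = Quotient.mk _ s ↔ pK.SameCycle s t :=
          (vt_iff (s := t) (t := s)).trans Equiv.Perm.sameCycle_comm
        simp only [this]
        split_ifs <;> simp_all
      rw [Finset.sum_congr rfl fun t _ => h3 t, Finset.sum_boole]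
      have h4 := hev s
      have h5 : {t | pK.SameCycle s t ∧ e t}.ncard =
          (Finset.univ.filter fun t => pK.SameCycle s t ∧ e t).card := by
        rw [← Set.ncard_coe_finset]
        congr 1
        ext t
        simp
      rw [h5] at h4
      obtain ⟨m, hm⟩ := h4
      rw [hm]
      show ((m + m : ℕ) : F2) = 0
      push_cast
      exact z2 _
  rw [h1] at h2
  obtain ⟨f, hf⟩ := h2
  refine ⟨fun g => f g = 1, fun s => ?_⟩
  have h3 : f s.facet + f s.stE.facet = if e s then (1 : F2) else 0 := congrFun hf s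
  have h4 : ∀ a b : F2, (a + b = 1 ↔ ¬ (a = 1 ↔ b = 1)) := by decide
  rw [← h4, h3]
  by_cases h5 : e s
  · simp [h5]
  · simp [h5]

end Pool.Agent.MP42NG
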