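import Pool.Agent.MP42.NG.Cor
import Pool.Agent.MP42.NG.Eul
import Pool.Agent.MP42.BW.PDefs

/-!
# The vertices and the edges of the surface (owner helper70)

`card_verts`: the cycles of `pK` are the grid points of the surface; `card_edges`: `E = 2 F`.
-/

set_option autoImplicit false
set_option linter.unusedSectionVars false

namespace Pool.Agent.MP42NG

open Pool.Agent.Helper55.UNF Pool.Agent.Helper55.UNF.GridSolid Pool.Agent.MP42G
open Pool.Agent.MP42K Pool.Agent.MP42.Geo
open Loc8

variable {P : GridSolid}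

/-! ## Connected patterns -/

lemma walk_closed (χ A : (Fin 3 → Bool) → Prop)
    (h : (cubeGraph.induce {ε | χ ε}).Preconnected)
    (hA : ∀ ε a, χ (Function.update ε a (!ε a)) → A ε → A (Function.update ε a (!ε a)))
    (ε δ : Fin 3 → Bool) (hε : χ ε) (hδ : χ δ) (hAε : A ε) : A δ := by
  have key : ∀ x y : {ε | χ ε}, (cubeGraph.induce {ε | χ ε}).Reachable x y → A x.1 → A y.1 := by
    intro x y hxy
    obtain ⟨w⟩ := hxy
    induction w with
    | nil => exact id
    | @cons x y z hadj w ih =>
      intro hx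
      apply ih
      obtain ⟨a, h1, h2⟩ : ∃ a, x.1 a ≠ y.1 a ∧ ∀ b, b ≠ a → x.1 b = y.1 b := hadj
      have h3 : Function.update x.1 a (!x.1 a) = y.1 := by
        funext b
        by_cases hb : b = a
        · subst hb
          rw [Function.update_self]
          revert h1
          cases x.1 b <;> cases y.1 b <;> simp
        · rw [Function.update_of_ne hb, h2 b hb]
      rw [← h3]
      apply hA _ _ _ hx
      rw [h3]; exact y.2
  exact key ⟨ε, hε⟩ ⟨δ, hδ⟩ (h _ _) hAε

lemma flood_sub : ∀ m < 256, flood m &&& m = flood m ∧ flood m < 256 := by decide +kernel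

lemma exists_bit : ∀ x < 256, x ≠ 0 → ∃ i < 8, x.testBit i = true := by decide +kernel

lemma compl_bit : ∀ m < 256, ∀ i < 8, (255 - m).testBit i = !m.testBit i := by decide +kernel

lemma flood_eq (m : ℕ) (hm : m < 256)
    (h : (cubeGraph.induce {ε | m.testBit (num ε) = true}).Preconnected) : flood m = m := by
  by_cases h0 : m = 0
  · subst h0; decide
  obtain ⟨hs, hl⟩ := flood_sub m hm
  have hc := clo_all m hm
  unfold clo at hc
  rw [Bool.and_eq_true, beq_iff_eq, Bool.or_eq_true, beq_iff_eq] at hc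
  have hf0 : flood m ≠ 0 := by
    rcases hc.2 with h1 | h1
    · exact absurd h1 h0
    · simpa using h1
  obtain ⟨i0, hi0, hb0⟩ := exists_bit _ hl hf0
  have hsub : ∀ i, (flood m).testBit i = true → m.testBit i = true := by
    intro i hi
    rw [← hs, Nat.testBit_and, Bool.and_eq_true] at hi
    exact hi.2
  have hall : ∀ i < 8, m.testBit i = true → (flood m).testBit i = true := by
    intro i hi him
    have := walk_closed (fun ε => m.testBit (num ε) = true)
      (fun ε => (flood m).testBit (num ε) = true) h (by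
        intro ε a h1 h2
        rw [← hc.1]
        unfold grow
        rw [Nat.testBit_and, Bool.and_eq_true]
        refine ⟨?_, h1⟩
        rw [num_update]
        exact nb_all _ hl _ (num_lt ε) _ a.2 h2) (bits i0) (bits i)
      (by rw [num_bits _ hi0]; exact hsub _ hb0) (by rw [num_bits _ hi]; exact him)
      (by rw [num_bits _ hi0]; exact hb0)
    rw [num_bits _ hi] at this
    exact this
  apply Nat.eq_of_testBit_eq
  intro i
  by_cases hi : i < 8
  · by_cases h1 : m.testBit i = true
    · rw [h1, hall i hi h1]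
    · have h2 : ¬ (flood m).testBit i = true := fun h2 => h1 (hsub i h2)
      rw [Bool.not_eq_true] at h1 h2
      rw [h1, h2]
  · have h8 : 2 ^ 8 ≤ 2 ^ i := Nat.pow_le_pow_right (by norm_num) (by omega)
    rw [Nat.testBit_lt_two_pow (lt_of_lt_of_le hl h8),
      Nat.testBit_lt_two_pow (lt_of_lt_of_le hm h8)]

lemma pat_solid (v : Fin 3 → ℤ) (ε : Fin 3 → Bool) :
    (pat P v).testBit (num ε) = true ↔ corner v ε ∈ P.cells := by
  rw [pat_bit _ _ (num_lt ε), bits_num, decide_eq_true_iff]

lemma pat_void (v : Fin 3 → ℤ) (ε : Fin 3 → Bool) :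
    (255 - pat P v).testBit (num ε) = true ↔ corner v ε ∉ P.cells := by
  rw [compl_bit _ (pat_lt v) _ (num_lt ε), Bool.not_eq_true', ← Bool.not_eq_true, pat_solid]

lemma pat_good (hM : P.IsManifold) (v : Fin 3 → ℤ) (h0 : stMask (pat P v) ≠ 0) :
    orb (pat P v) 6 (stMask (pat P v)).log2 0 = stMask (pat P v) := by
  have h1 : flood (pat P v) = pat P v := by
    apply flood_eq _ (pat_lt v)
    have : {ε | (pat P v).testBit (num ε) = true} = {ε | corner v ε ∈ P.cells} := by
      ext ε; exact pat_solid v ε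
    rw [this]
    exact (hM.2 v).1
  have h2 : flood (255 - pat P v) = 255 - pat P v := by
    apply flood_eq _ (by have := pat_lt (P := P) v; omega)
    have : {ε | (255 - pat P v).testBit (num ε) = true} = {ε | corner v ε ∉ P.cells} := by
      ext ε; exact pat_void v ε
    rw [this]
    exact (hM.2 v).2
  have h3 := chk_all _ (pat_lt (P := P) v)
  unfold chk at h3
  rw [h1, h2] at h3
  simpa [h0] using h3

lemma orb_spec (m : ℕ) : ∀ n q x r, (orb m n q x).testBit r = true →
    x.testBit r = true ∨ ∃ k, r = (kap m)^[k] q := by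
  intro n
  induction n with
  | zero => intro q x r h; exact Or.inl h
  | succ n ih =>
    intro q x r h
    rcases ih (kap m q) (x ||| 1 <<< q) r h with h1 | ⟨k, hk⟩
    · rw [Nat.testBit_or, Bool.or_eq_true] at h1
      rcases h1 with h1 | h1
      · exact Or.inl h1
      · right
        refine ⟨0, ?_⟩
        rw [Nat.one_shiftLeft, Nat.testBit_two_pow] at h1
        simpa using (of_decide_eq_true h1).symm
    · right
      exact ⟨k + 1, by rw [hk, Function.iterate_succ_apply]⟩

lemma log_all : ∀ m < 256, stMask m ≠ 0 → (stMask m).testBit (stMask m).log2 = true ∧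
    (stMask m).log2 < 24 := by decide +kernel

lemma loc_iter (s : P.FSt) (k : ℕ) : loc (kappa^[k] s) = (kap (pat P (cor s.1)))^[k] (loc s) := by
  induction k with
  | zero => rfl
  | succ k ih =>
    rw [Function.iterate_succ_apply', kap_loc, kappa_iter_cor, ih, Function.iterate_succ_apply']

lemma kappa_eq_pK (s : P.FSt) : kappa s = pK s := rfl

lemma kappa_iter (s : P.FSt) (k : ℕ) : kappa^[k] s = (pK ^ k) s := by
  induction k with
  | zero => rfl
  | succ k ih => rw [Function.iterate_succ_apply', ih, pow_succ', Equiv.Perm.mul_apply]; rfl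

/-- a solid and a void box at a grid point -/
lemma exists_state_local (v : Fin 3 → ℤ) (i : ℕ) (hi : i < 8) (a : ℕ) (ha : a < 3)
    (h : (stMask (pat P v)).testBit (i + 8 * a) = true) :
    ∃ s : P.FSt, cor s.1 = v ∧ loc s = i + 8 * a := by
  rw [stMask_all _ (pat_lt v) i hi a ha, Bool.and_eq_true, pat_bit _ _ hi] at h
  have h2 := h.2
  have h3 := pat_bit (P := P) v _ (xor_lt i hi ⟨a, ha⟩)
  rw [h3] at h2
  obtain ⟨s, h4, h5, h6⟩ := exists_state (P := P) v i hi ⟨a, ha⟩ (by simpa using h.1)
    (by simpa using h2)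
  refine ⟨s, h4, ?_⟩
  unfold loc
  rw [h5, h6]

/-- **the states at a grid point are one cycle of `pK`** -/
theorem sameCycle_iff_cor (hM : P.IsManifold) (s t : P.FSt) :
    pK.SameCycle s t ↔ cor s.1 = cor t.1 := by
  constructor
  · intro h
    obtain ⟨k, -, hk⟩ := h.exists_pow_eq'
    rw [← hk, ← kappa_iter, kappa_iter_cor]
  · intro h
    have h0 : stMask (pat P (cor s.1)) ≠ 0 := by
      intro h0
      have := loc_mem s
      rw [h0] at this
      simp at this
    have hg := pat_good hM (cor s.1) h0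
    obtain ⟨hl1, hl2⟩ := log_all _ (pat_lt _) h0
    set m := pat P (cor s.1) with hm
    set q := (stMask m).log2 with hq
    obtain ⟨s0, hs1, hs2⟩ := exists_state_local (P := P) (cor s.1) (q % 8) (by omega) (q / 8)
      (by omega) (by rw [Nat.mod_add_div]; exact hl1)
    rw [Nat.mod_add_div] at hs2
    have key : ∀ u : P.FSt, cor u.1 = cor s.1 → pK.SameCycle s0 u := by
      intro u hu
      have h1 := loc_mem u
      rw [hu, ← hm, ← hg] at h1
      rcases orb_spec _ _ _ _ _ h1 with h2 | ⟨k, hk⟩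
      · simp at h2
      · refine ⟨k, ?_⟩
        rw [zpow_natCast, ← kappa_iter]
        apply loc_inj
        · rw [kappa_iter_cor, hs1, hu]
        · rw [loc_iter, hs1, hs2, hk]
    exact (key s rfl).symm.trans (key t h.symm)

lemma onV_cor (s : P.FSt) : Pool.BW.OnV P (cor s.1) := by
  have hi := cr_lt s.1.d s.1.e s.2.2
  have hc := c_eq_corner s.1 s.2.2
  refine ⟨bits (cr s.1.d s.1.e), bits (cr s.1.d s.1.e ^^^ 2 ^ (s.1.d.1 : ℕ)), ?_, ?_⟩
  · rw [← hc]; exact s.2.1.1
  · rw [← shift_corner _ _ hi _ (cr_d _ _ s.2.2), ← hc]; exact s.2.1.2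

/-- adjacent corners with the common signs of two corners -/
lemma exists_state_adj (v : Fin 3 → ℤ) (ε δ : Fin 3 → Bool) (h1 : corner v ε ∈ P.cells)
    (h2 : corner v δ ∉ P.cells) :
    ∃ s : P.FSt, cor s.1 = v ∧ ε s.1.d.1 ≠ δ s.1.d.1 ∧
      ∀ b, ε b = δ b → bits (cr s.1.d s.1.e) b = ε b := by
  obtain ⟨ε', a, h3, h4, h5, h6⟩ := exists_adj (fun ε => corner v ε ∈ P.cells) ε δ h1 h2
  obtain ⟨s, h7, h8, h9⟩ := exists_state (P := P) v (num ε') (num_lt ε') a
    (by rw [bits_num]; exact h3) (by rw [bits_xor _ (num_lt ε'), bits_num]; exact h4)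
  refine ⟨s, h7, by rw [h9]; exact h5, ?_⟩
  intro b hb
  rw [h8, bits_num]
  exact h6 b hb

/-- (S1) the cycles of `pK` are the grid points of the surface -/
theorem card_verts (hM : P.IsManifold) : Nat.card (Vt P) = {v | Pool.BW.OnV P v}.ncard := by
  have hwd : ∀ s t : P.FSt, (Equiv.Perm.SameCycle.setoid (pK : Equiv.Perm P.FSt)) s t →
      (⟨cor s.1, onV_cor s⟩ : {v | Pool.BW.OnV P v}) = ⟨cor t.1, onV_cor t⟩ := by
    intro s t h
    exact Subtype.ext ((sameCycle_iff_cor hM s t).1 h)
  show _ = Nat.card {v | Pool.BW.OnV P v}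
  apply Nat.card_eq_of_bijective
    (Quotient.lift (fun s : P.FSt => (⟨cor s.1, onV_cor s⟩ : {v | Pool.BW.OnV P v})) hwd)
  constructor
  · intro x y
    induction x using Quotient.inductionOn with
    | h s =>
      induction y using Quotient.inductionOn with
      | h t =>
        intro h
        apply Quotient.sound
        exact (sameCycle_iff_cor hM s t).2 (congrArg Subtype.val h)
  · rintro ⟨v, ε, δ, h1, h2⟩
    obtain ⟨s, h3, -, -⟩ := exists_state_adj v ε δ h1 h2
    exact ⟨Quotient.mk _ s, Subtype.ext h3⟩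

/-! ## Edges -/

/-- the edge of a state whose north direction is negative -/
lemma ed_eq_cor (s : P.FSt) (h : s.1.n.2 = false) : ed s.1 = cor s.1 := by
  funext b
  unfold cor
  have : ¬ (b, true) = s.1.n := by
    intro h1
    rw [← h1] at h
    exact absurd h (by simp)
  rw [if_neg this, add_zero]

lemma onE_ed (s : P.FSt) (h : s.1.n.2 = false) : Pool.BW.OnE P (s.1.n.1, ed s.1) := by
  have hi := cr_lt s.1.d s.1.e s.2.2
  have hc := c_eq_corner s.1 s.2.2
  have hn : bits (cr s.1.d s.1.e) s.1.n.1 = true := by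
    have := cr_n s.1.d s.1.e s.2.2
    have h2 : (cross s.1.d s.1.e).2 = false := h
    rw [h2] at this
    exact this
  refine ⟨bits (cr s.1.d s.1.e), bits (cr s.1.d s.1.e ^^^ 2 ^ (s.1.d.1 : ℕ)), hn, ?_, ?_, ?_⟩
  · rw [bits_xor _ hi, Function.update_of_ne]
    · exact hn
    · exact cross_axis_left _ _ s.2.2
  · show corner (ed s.1) _ ∈ _
    rw [ed_eq_cor s h, ← hc]; exact s.2.1.1
  · show corner (ed s.1) _ ∉ _
    rw [ed_eq_cor s h, ← shift_corner _ _ hi _ (cr_d _ _ s.2.2), ← hc]; exact s.2.1.2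

lemma ed_rho (s : P.FSt) : ed (rho s).1 = ed s.1 := ed_stepE s.1 s.2.2

lemma ed_rL (s : P.FSt) (h : s.1.e.2 = false) : ed s.rL.1 = cor s.1 := by
  have key : ∀ d e : Dir, d.1 ≠ e.1 → e.2 = false → ∀ a : Fin 3,
      offE d (cross d e) a = offE d e a + (if (a, true) = cross d e then (1 : ℤ) else 0) := by
    unfold offE; decide
  funext a
  show s.1.c a + offE s.1.d (cross s.1.d s.1.e) a = s.1.c a + offE s.1.d s.1.e a + _
  rw [key _ _ s.2.2 h, add_assoc]
  rfl

lemma exists_state_onE (p : Fin 3 × (Fin 3 → ℤ)) (h : Pool.BW.OnE P p) :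
    ∃ s : P.FSt, s.1.n = (p.1, false) ∧ ed s.1 = p.2 := by
  obtain ⟨ε, δ, h1, h2, h3, h4⟩ := h
  obtain ⟨s, h5, h6, h7⟩ := exists_state_adj p.2 ε δ h3 h4
  have h8 : bits (cr s.1.d s.1.e) p.1 = true := by rw [h7 p.1 (by rw [h1, h2]), h1]
  have h9 : p.1 ≠ s.1.d.1 := by
    intro h9
    apply h6
    rw [← h9, h1, h2]
  by_cases h10 : p.1 = s.1.e.1
  · -- the edge on the north side
    have h11 : s.1.e.2 = false := by
      have := cr_e s.1.d s.1.e s.2.2
      have h12 : (cr s.1.d s.1.e).testBit (s.1.e.1 : ℕ) = true := by rw [← h10]; exact h8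
      rw [h12] at this
      simpa using this.symm
    have h12 : s.rL.1.n = (p.1, true) := by
      show cross s.1.d (cross s.1.d s.1.e) = _
      rw [cross_cross _ _ s.2.2, h10]
      unfold opp
      rw [h11]
      rfl
    refine ⟨rho s.rL, ?_, ?_⟩
    · rw [rho_n, h12]
      rfl
    · rw [ed_rho, ed_rL s h11, h5]
  · have h11 : p.1 = s.1.n.1 := axis_eq _ _ _ s.2.2 h9 h10
    have h12 : s.1.n.2 = false := by
      have := cr_n s.1.d s.1.e s.2.2
      have h12 : (cr s.1.d s.1.e).testBit ((cross s.1.d s.1.e).1 : ℕ) = true := by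
        have h13 : (cross s.1.d s.1.e).1 = p.1 := h11.symm
        rw [h13]; exact h8
      rw [h12] at this
      have h14 : (cross s.1.d s.1.e).2 = false := by simpa using this.symm
      exact h14
    refine ⟨s, ?_, ?_⟩
    · rw [h11, ← h12]
    · rw [ed_eq_cor s h12, h5]

/-- (S2) every facet has four edges and every edge is in two facets -/
theorem card_edges (hM : P.IsManifold) : {p | Pool.BW.OnE P p}.ncard = 2 * Nat.card P.Facet := by
  classical
  have h1 : Nat.card {p | Pool.BW.OnE P p} = Nat.card {s : P.FSt // s.1.n.2 = false} := by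
    symm
    apply Nat.card_eq_of_bijective (fun s : {s : P.FSt // s.1.n.2 = false} =>
      (⟨(s.1.1.n.1, ed s.1.1), onE_ed s.1 s.2⟩ : {p | Pool.BW.OnE P p}))
    constructor
    · intro s t h
      have h2 := congrArg Subtype.val h
      simp only [Prod.mk.injEq] at h2
      apply Subtype.ext
      apply state_unique hM _ _ _ h2.2
      exact Prod.ext h2.1 (by rw [s.2, t.2])
    · rintro ⟨p, hp⟩
      obtain ⟨s, hs1, hs2⟩ := exists_state_onE p hp
      refine ⟨⟨s, by rw [hs1]⟩, ?_⟩
      apply Subtype.ext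
      show (s.1.n.1, ed s.1) = p
      rw [hs1, hs2]
  have h2 : Nat.card {s : P.FSt // s.1.n.2 = false} = Nat.card {s : P.FSt // ¬ s.1.n.2 = false} := by
    apply Nat.card_congr
    refine ⟨fun s => ⟨s.1.r2, ?_⟩, fun s => ⟨s.1.r2, ?_⟩, ?_, ?_⟩
    · rw [r2_n]
      have := s.2
      unfold opp
      simp [this]
    · rw [r2_n]
      have := s.2
      unfold opp
      simp only [Bool.not_eq_false] at this
      simp [this]
    · intro s; exact Subtype.ext (FSt.r2_r2 s.1)
    · intro s; exact Subtype.ext (FSt.r2_r2 s.1)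
  have h3 : Nat.card P.FSt = Nat.card {s : P.FSt // s.1.n.2 = false} +
      Nat.card {s : P.FSt // ¬ s.1.n.2 = false} := by
    rw [← Nat.card_sum]
    exact Nat.card_congr (Equiv.sumCompl _).symm
  have h4 : Nat.card P.FSt = 4 * Nat.card P.Facet := by
    rw [Nat.card_eq_fintype_card, Nat.card_eq_fintype_card]
    exact card_FSt
  show Nat.card {p | Pool.BW.OnE P p} = _
  omega

/-- the Euler characteristic -/
theorem genusZero_of_eul (hP : P.IsOrthogonalPolyhedron) (h : Pool.BW.eul P = 2) : GenusZero P := by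
  apply genusZero_of_card hP
  have h1 := card_verts hP.1
  have h2 := card_edges hP.1
  unfold Pool.BW.eul at h
  rw [← h1, h2] at h
  push_cast at h
  omega

end Pool.Agent.MP42NG
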