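import Mathlib

/-!
# The eight boxes around a grid point (owner helper70)

A pattern is a number `m < 256`, the corner `i < 8` is solid if `m.testBit i`.  A local state is
`i + 8 a`: the corner `i` is solid and its neighbour across the axis `a` is void.
-/

set_option autoImplicit false

namespace Pool.Agent.MP42NG.Loc8

/-- exchange the corners across an axis -/
def sh0 (x : ℕ) : ℕ := ((x &&& 0x55) <<< 1) ||| ((x &&& 0xAA) >>> 1)
def sh1 (x : ℕ) : ℕ := ((x &&& 0x33) <<< 2) ||| ((x &&& 0xCC) >>> 2)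
def sh2 (x : ℕ) : ℕ := ((x &&& 0x0F) <<< 4) ||| ((x &&& 0xF0) >>> 4)

/-- a set of corners with its neighbours -/
def nb (x : ℕ) : ℕ := x ||| sh0 x ||| sh1 x ||| sh2 x

def grow (m x : ℕ) : ℕ := nb x &&& m

/-- the component of the first solid corner -/
def flood (m : ℕ) : ℕ :=
  grow m (grow m (grow m (grow m (grow m (grow m (grow m (m &&& (256 - m))))))))

/-- the local states -/
def stMask (m : ℕ) : ℕ :=
  (m &&& (255 ^^^ sh0 m)) ||| ((m &&& (255 ^^^ sh1 m)) <<< 8) ||| ((m &&& (255 ^^^ sh2 m)) <<< 16)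

/-- the axis of the east direction -/
def eax (i a : ℕ) : ℕ := (a + 1 + (0x96 >>> i) % 2) % 3

/-- the rotation around the grid point -/
def kap (m q : ℕ) : ℕ :=
  bif m.testBit (q % 8 ^^^ 2 ^ (q / 8) ^^^ 2 ^ eax (q % 8) (q / 8)) then
    (q % 8 ^^^ 2 ^ (q / 8) ^^^ 2 ^ eax (q % 8) (q / 8)) + 8 * eax (q % 8) (q / 8)
  else bif m.testBit (q % 8 ^^^ 2 ^ eax (q % 8) (q / 8)) then
    (q % 8 ^^^ 2 ^ eax (q % 8) (q / 8)) + 8 * (q / 8)
  else q % 8 + 8 * eax (q % 8) (q / 8)

/-- the local states after `q` -/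
def orb (m : ℕ) : ℕ → ℕ → ℕ → ℕ
  | 0, _, x => x
  | n + 1, q, x => orb m n (kap m q) (x ||| 1 <<< q)

/-- check of one pattern -/
def chk (m : ℕ) : Bool :=
  !(flood m == m) || !(flood (255 - m) == 255 - m) || (stMask m == 0) ||
    (orb m 6 (stMask m).log2 0 == stMask m)

lemma chk_all : ∀ m < 256, chk m = true := by decide +kernel

/-- the flood is closed -/
def clo (m : ℕ) : Bool := (grow m (flood m) == flood m) && (m == 0 || !(flood m == 0)) 

lemma clo_all : ∀ m < 256, clo m = true := by decide +kernel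

lemma nb_all : ∀ x < 256, ∀ i < 8, ∀ a < 3, x.testBit i = true →
    (nb x).testBit (i ^^^ 2 ^ a) = true := by decide +kernel

lemma stMask_all : ∀ m < 256, ∀ i < 8, ∀ a < 3, (stMask m).testBit (i + 8 * a) =
    (m.testBit i && !m.testBit (i ^^^ 2 ^ a)) := by decide +kernel

end Pool.Agent.MP42NG.Loc8
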