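import Pool.Agent.MP42.Geo
import Pool.Agent.MP42.NG.Loc8

/-!
# The states at a grid point (owner helper70)
-/

set_option autoImplicit false
set_option linter.unusedSectionVars false

namespace Pool.Agent.MP42NG

open Pool.Agent.Helper55.UNF Pool.Agent.Helper55.UNF.GridSolid Pool.Agent.MP42.Geo
open Loc8

variable {P : GridSolid}

/-- the signs of a corner -/
def bits (i : ℕ) : Fin 3 → Bool := fun a => i.testBit (a : ℕ)

/-- the number of a corner -/
def num (ε : Fin 3 → Bool) : ℕ := (ε 0).toNat + 2 * (ε 1).toNat + 4 * (ε 2).toNat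

lemma num_lt (ε : Fin 3 → Bool) : num ε < 8 := by
  unfold num
  rcases ε 0 <;> rcases ε 1 <;> rcases ε 2 <;> decide

lemma bits_num : ∀ ε : Fin 3 → Bool, bits (num ε) = ε := by decide

lemma num_bits : ∀ i < 8, num (bits i) = i := by decide

lemma bits_xor : ∀ i < 8, ∀ a : Fin 3,
    bits (i ^^^ 2 ^ (a : ℕ)) = Function.update (bits i) a (!bits i a) := by decide

lemma num_update : ∀ (ε : Fin 3 → Bool) (a : Fin 3),
    num (Function.update ε a (!ε a)) = num ε ^^^ 2 ^ (a : ℕ) := by decide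

/-- one of the three directions of a state at its corner gives a bit if it is negative -/
def nbit (d : Dir) : ℕ := if d.2 then 0 else 2 ^ (d.1 : ℕ)

/-- the number of the solid corner of a state with the directions `d`, `e` -/
def cr (d e : Dir) : ℕ := nbit d + nbit e + nbit (cross d e)

lemma cr_lt : ∀ d e : Dir, d.1 ≠ e.1 → cr d e < 8 := by decide

lemma cr_off : ∀ d e : Dir, d.1 ≠ e.1 → ∀ b : Fin 3,
    offE d e b + (if (b, true) = cross d e then 1 else 0) =
      (if (cr d e).testBit (b : ℕ) then (0 : ℤ) else 1) := by decide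

lemma cr_d : ∀ d e : Dir, d.1 ≠ e.1 → (cr d e).testBit (d.1 : ℕ) = !d.2 := by decide
lemma cr_e : ∀ d e : Dir, d.1 ≠ e.1 → (cr d e).testBit (e.1 : ℕ) = !e.2 := by decide
lemma cr_n : ∀ d e : Dir, d.1 ≠ e.1 →
    (cr d e).testBit ((cross d e).1 : ℕ) = !(cross d e).2 := by decide

lemma eax_cr : ∀ d e : Dir, d.1 ≠ e.1 → eax (cr d e) (d.1 : ℕ) = (e.1 : ℕ) := by decide

lemma cr_inj : ∀ d e d' e' : Dir, d.1 ≠ e.1 → d'.1 ≠ e'.1 → cr d e = cr d' e' → d.1 = d'.1 →
    d = d' ∧ e = e' := by decide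

lemma cr_surj : ∀ i < 8, ∀ a : Fin 3, ∃ d e : Dir, d.1 ≠ e.1 ∧ cr d e = i ∧ d.1 = a := by decide

lemma cr_concave : ∀ d e : Dir, d.1 ≠ e.1 →
    cr (opp e) (cross d e) = cr d e ^^^ 2 ^ (d.1 : ℕ) ^^^ 2 ^ (e.1 : ℕ) := by decide

lemma cr_flat : ∀ d e : Dir, d.1 ≠ e.1 →
    cr d (cross d e) = cr d e ^^^ 2 ^ (e.1 : ℕ) := by decide

lemma cr_convex : ∀ d e : Dir, d.1 ≠ e.1 → cr e (cross d e) = cr d e := by decide

lemma xor_comm3 : ∀ i < 8, ∀ a b : Fin 3, i ^^^ 2 ^ (a : ℕ) ^^^ 2 ^ (b : ℕ) =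
    i ^^^ 2 ^ (b : ℕ) ^^^ 2 ^ (a : ℕ) := by decide

lemma xor_lt : ∀ i < 8, ∀ a : Fin 3, i ^^^ 2 ^ (a : ℕ) < 8 := by decide

/-- the box of a state as a box at its corner -/
lemma c_eq_corner (s : St) (h : s.d.1 ≠ s.e.1) : s.c = corner (cor s) (bits (cr s.d s.e)) := by
  funext b
  have h1 := cr_off s.d s.e h b
  unfold corner bits cor ed
  show s.c b = if (cr s.d s.e).testBit (b : ℕ) then _ else _
  change _ + (if (b, true) = s.n then 1 else 0) = _ at h1
  split_ifs at h1 ⊢ <;> linarith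

/-- the neighbour of a box at a grid point -/
lemma shift_corner (v : Fin 3 → ℤ) (i : ℕ) (hi : i < 8) (d : Dir)
    (h : i.testBit (d.1 : ℕ) = !d.2) :
    shift (corner v (bits i)) d = corner v (bits (i ^^^ 2 ^ (d.1 : ℕ))) := by
  rw [bits_xor i hi]
  funext b
  by_cases hb : b = d.1
  · subst hb
    rw [shift_same]
    unfold corner
    rw [Function.update_self]
    have : bits i d.1 = !d.2 := h
    rw [this]
    rcases d with ⟨a, s⟩
    cases s
    · simp; ring
    · simp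
  · rw [shift_ne _ _ hb]
    unfold corner
    rw [Function.update_of_ne hb]

/-- the pattern at a grid point -/
def pat (P : GridSolid) (v : Fin 3 → ℤ) : ℕ :=
  Nat.ofBits (fun i : Fin 8 => decide (corner v (bits i) ∈ P.cells))

lemma pat_lt (v : Fin 3 → ℤ) : pat P v < 256 := Nat.ofBits_lt_two_pow _

lemma pat_bit (v : Fin 3 → ℤ) (i : ℕ) (hi : i < 8) :
    (pat P v).testBit i = decide (corner v (bits i) ∈ P.cells) := by
  unfold pat
  rw [Nat.testBit_ofBits_lt _ _ hi]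

/-- the local state of a state -/
def loc (s : P.FSt) : ℕ := cr s.1.d s.1.e + 8 * (s.1.d.1 : ℕ)

lemma loc_mod (s : P.FSt) : loc s % 8 = cr s.1.d s.1.e := by
  have := cr_lt s.1.d s.1.e s.2.2
  unfold loc; omega

lemma loc_div (s : P.FSt) : loc s / 8 = (s.1.d.1 : ℕ) := by
  have := cr_lt s.1.d s.1.e s.2.2
  unfold loc; omega

lemma loc_inj (s t : P.FSt) (h1 : cor s.1 = cor t.1) (h2 : loc s = loc t) : s = t := by
  have h3 : cr s.1.d s.1.e = cr t.1.d t.1.e := by rw [← loc_mod, ← loc_mod, h2]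
  have h4 : s.1.d.1 = t.1.d.1 := by
    have : loc s / 8 = loc t / 8 := by rw [h2]
    rw [loc_div, loc_div] at this
    exact Fin.ext this
  obtain ⟨h5, h6⟩ := cr_inj _ _ _ _ s.2.2 t.2.2 h3 h4
  apply FSt.ext'
  have h7 : s.1.c = t.1.c := by
    rw [c_eq_corner s.1 s.2.2, c_eq_corner t.1 t.2.2, h1, h3]
  exact St.ext h7 h5 h6

lemma kap_loc (s : P.FSt) : loc (kappa s) = kap (pat P (cor s.1)) (loc s) := by
  have hi := cr_lt s.1.d s.1.e s.2.2
  have hc := c_eq_corner s.1 s.2.2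
  have he : shift s.1.c s.1.e = corner (cor s.1) (bits (cr s.1.d s.1.e ^^^ 2 ^ (s.1.e.1 : ℕ))) := by
    conv_lhs => rw [hc]
    exact shift_corner _ _ hi _ (cr_e _ _ s.2.2)
  have hed : shift (shift s.1.c s.1.e) s.1.d =
      corner (cor s.1) (bits (cr s.1.d s.1.e ^^^ 2 ^ (s.1.d.1 : ℕ) ^^^ 2 ^ (s.1.e.1 : ℕ))) := by
    rw [he, shift_corner _ _ (xor_lt _ hi _) _ (by
      have key : ∀ d e : Dir, d.1 ≠ e.1 →
        (cr d e ^^^ 2 ^ (e.1 : ℕ)).testBit (d.1 : ℕ) = !d.2 := by decide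
      exact key _ _ s.2.2), xor_comm3 _ hi]
  unfold kap
  rw [loc_mod, loc_div, eax_cr _ _ s.2.2, pat_bit _ _ (xor_lt _ (xor_lt _ hi _) _),
    pat_bit _ _ (xor_lt _ hi _), ← he, ← hed]
  show cr (s.1.stepE P).rotL.d (s.1.stepE P).rotL.e + 8 * ((s.1.stepE P).rotL.d.1 : ℕ) = _
  by_cases h1 : shift (shift s.1.c s.1.e) s.1.d ∈ P.cells
  · have e : s.1.stepE P = ⟨shift (shift s.1.c s.1.e) s.1.d, opp s.1.e, s.1.d⟩ := by
      unfold St.stepE; rw [if_pos h1]
    rw [e, decide_eq_true h1, cond_true]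
    show cr (opp s.1.e) (cross (opp s.1.e) s.1.d) + 8 * (s.1.e.1 : ℕ) = _
    rw [cross_concave _ _ s.2.2, cr_concave _ _ s.2.2]
  · by_cases h2 : shift s.1.c s.1.e ∈ P.cells
    · have e : s.1.stepE P = ⟨shift s.1.c s.1.e, s.1.d, s.1.e⟩ := by
        unfold St.stepE; rw [if_neg h1, if_pos h2]
      rw [e, decide_eq_false h1, decide_eq_true h2, cond_true, cond_false]
      show cr s.1.d (cross s.1.d s.1.e) + 8 * (s.1.d.1 : ℕ) = _
      rw [cr_flat _ _ s.2.2]
    · have e : s.1.stepE P = ⟨s.1.c, s.1.e, opp s.1.d⟩ := by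
        unfold St.stepE; rw [if_neg h1, if_neg h2]
      rw [e, decide_eq_false h1, decide_eq_false h2, cond_false, cond_false]
      show cr s.1.e (cross s.1.e (opp s.1.d)) + 8 * (s.1.e.1 : ℕ) = _
      rw [cross_convex _ _ s.2.2, cr_convex _ _ s.2.2]

/-- the local state of a state at `v` is a local state of the pattern -/
lemma loc_mem (s : P.FSt) : (stMask (pat P (cor s.1))).testBit (loc s) = true := by
  have hi := cr_lt s.1.d s.1.e s.2.2
  have hc := c_eq_corner s.1 s.2.2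
  have hd : shift s.1.c s.1.d = corner (cor s.1) (bits (cr s.1.d s.1.e ^^^ 2 ^ (s.1.d.1 : ℕ))) := by
    conv_lhs => rw [hc]
    exact shift_corner _ _ hi _ (cr_d _ _ s.2.2)
  unfold loc
  rw [stMask_all _ (pat_lt _) _ hi _ s.1.d.1.2, pat_bit _ _ hi, pat_bit _ _ (xor_lt _ hi _), ← hc,
    ← hd]
  have h1 : s.1.c ∈ P.cells := s.2.1.1
  have h2 : shift s.1.c s.1.d ∉ P.cells := s.2.1.2
  simp [h1, h2]

/-- every local state comes from a state -/
lemma exists_state (v : Fin 3 → ℤ) (i : ℕ) (hi : i < 8) (a : Fin 3)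
    (h1 : corner v (bits i) ∈ P.cells) (h2 : corner v (bits (i ^^^ 2 ^ (a : ℕ))) ∉ P.cells) :
    ∃ s : P.FSt, cor s.1 = v ∧ cr s.1.d s.1.e = i ∧ s.1.d.1 = a := by
  obtain ⟨d, e, h, hcr, hda⟩ := cr_surj i hi a
  have hd : (i.testBit (d.1 : ℕ)) = !d.2 := by rw [← hcr]; exact cr_d d e h
  refine ⟨⟨⟨corner v (bits i), d, e⟩, ⟨h1, ?_⟩, h⟩, ?_, hcr, hda⟩
  · show shift (corner v (bits i)) d ∉ P.cells
    rw [shift_corner v i hi d hd, hda]
    exact h2
  · funext b
    have h3 := cr_off d e h b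
    show corner v (bits i) b + offE d e b + (if (b, true) = cross d e then 1 else 0) = v b
    rw [add_assoc, h3, hcr]
    unfold corner bits
    split_ifs <;> ring

/-- a solid and a void box at a point: there are adjacent ones -/
lemma exists_adj (χ : (Fin 3 → Bool) → Prop) (ε δ : Fin 3 → Bool) (h1 : χ ε) (h2 : ¬ χ δ) :
    ∃ ε' a, χ ε' ∧ ¬ χ (Function.update ε' a (!ε' a)) ∧ ε a ≠ δ a ∧
      ∀ b, ε b = δ b → ε' b = ε b := by
  classical
  -- the path
  have step : ∀ (ε' : Fin 3 → Bool) (a : Fin 3), ε' a = ε a → χ ε' →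
      ¬ χ (Function.update ε' a (δ a)) → ¬ χ (Function.update ε' a (!ε' a)) ∧ ε a ≠ δ a := by
    intro ε' a h3 h4 h5
    have h6 : ε a ≠ δ a := by
      intro h7
      apply h5
      rw [← h7, ← h3, Function.update_eq_self]
      exact h4
    refine ⟨?_, h6⟩
    have : (!ε' a) = δ a := by
      rw [h3]
      revert h6
      cases ε a <;> cases δ a <;> simp
    rw [this]; exact h5
  have up : ∀ (ε' : Fin 3 → Bool) (a : Fin 3), (∀ b, ε b = δ b → ε' b = ε b) →
      ∀ b, ε b = δ b → Function.update ε' a (δ a) b = ε b := by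
    intro ε' a h b hb
    by_cases hab : b = a
    · subst hab; rw [Function.update_self, hb]
    · rw [Function.update_of_ne hab, h b hb]
  have u0 : ∀ b, ε b = δ b → ε b = ε b := fun _ _ => rfl
  have u1 := up ε 0 u0
  have u2 := up _ 1 u1
  have h3 : Function.update (Function.update (Function.update ε 0 (δ 0)) 1 (δ 1)) 2 (δ 2) = δ := by
    funext b
    fin_cases b <;> simp [Function.update_apply]
  by_cases c1 : χ (Function.update ε 0 (δ 0))
  · by_cases c2 : χ (Function.update (Function.update ε 0 (δ 0)) 1 (δ 1))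
    · obtain ⟨k1, k2⟩ := step _ 2 (by simp [Function.update_apply]) c2 (by rw [h3]; exact h2)
      exact ⟨_, 2, c2, k1, k2, u2⟩
    · obtain ⟨k1, k2⟩ := step _ 1 (by simp [Function.update_apply]) c1 c2
      exact ⟨_, 1, c1, k1, k2, u1⟩
  · obtain ⟨k1, k2⟩ := step ε 0 rfl h1 c1
    exact ⟨ε, 0, h1, k1, k2, u0⟩

end Pool.Agent.MP42NG
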