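import Pool.Agent.MP42.NG.Eul
import Pool.Agent.MP42.NE.SysP

/-!
# Genus zero: every ring separates (owner helper86)

The regions are the orbits of `phi P` (next dart on the same rim) and `theta P` (the other end of
the strip that starts to the north).  If every even set of unit edges bounds, then for every ring
there is a two-colouring of the regions that changes exactly across this ring.
-/

set_option autoImplicit false
set_option linter.unusedSectionVars false

namespace Pool.Agent.MP42NG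

open Pool.Agent.Helper55.UNF Pool.Agent.Helper55.UNF.GridSolid Pool.Agent.MP42G
open Pool.Agent.MP42K Pool.Agent.MP42H Pool.Agent.MP42

variable {P : GridSolid}

section

variable {u : P.FSt} (hu : IsU u) {G : P.Facet → Prop}
  (hG : ∀ s, bot u s ↔ ¬ (G s.facet ↔ G s.stE.facet))

include hu

/-- upright edges are not bottom edges -/
lemma bot_V {s : P.FSt} (h : IsV s) : ¬ bot u s := by
  rintro (h1 | h1)
  · exact not_V_rL' h (IsV_of_U (st_U hu h1).1)
  · exact not_V_rR hu ((IsV_stE s).2 h) (IsV_of_U (st_U hu h1).1)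

include hG

lemma G_stE {s : P.FSt} (h : IsV s) : G s.facet ↔ G s.stE.facet := by
  by_contra hc
  exact bot_V hu h ((hG s).2 hc)

lemma G_pow {s : P.FSt} (h : IsV s) (n : ℕ) :
    IsV ((pE ^ n) s) ∧ (G ((pE ^ n) s).facet ↔ G s.facet) := by
  induction n with
  | zero => exact ⟨h, Iff.rfl⟩
  | succ n ih =>
    rw [pow_succ', Equiv.Perm.mul_apply, pE_apply]
    exact ⟨(IsV_stE _).2 ih.1, (G_stE hu hG ih.1).symm.trans ih.2⟩

lemma G_same {s t : P.FSt} (h : IsV s) (hst : pE.SameCycle s t) : G t.facet ↔ G s.facet := by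
  obtain ⟨n, rfl⟩ := hst.exists_nat_pow_eq
  exact (G_pow hu hG h n).2

omit hu in
/-- one step to the north -/
lemma G_stN (t : P.FSt) :
    (pE.SameCycle u t.r2 ∨ pE.SameCycle u t.stN) ↔ ¬ (G t.facet ↔ G t.stN.facet) := by
  have h1 := hG t.rL
  unfold bot at h1
  rw [FSt.rL_rL] at h1
  exact h1

lemma not_both (t : P.FSt) (h : pE.SameCycle u t.r2) : ¬ pE.SameCycle u t.stN := by
  intro h'
  exact not_flip (st_U hu h).1 (st_U hu h').1

/-- one step to the north, with the correction -/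
lemma G_step (t : P.FSt) : ((G t.facet ↔ ¬ pE.SameCycle u t.r2) ↔
    (G t.stN.facet ↔ ¬ pE.SameCycle u t.stN)) := by
  have h1 := G_stN hG t
  have h2 := not_both hu hG t
  tauto

/-- a facet orthogonal to `z` -/
lemma not_cyc {t : P.FSt} (h : ¬ IsDart t) (he : t.1.e.1 = 0) :
    ¬ pE.SameCycle u t ∧ ¬ pE.SameCycle u t.r2 := by
  have h1 : t.1.d.1 = 2 := by
    have h2 := t.2.2
    rw [he] at h2
    have h3 : t.1.d.1 ≠ 1 := fun h3 => h ⟨h3, he⟩
    have : ∀ a : Fin 3, a ≠ 0 → a ≠ 1 → a = 2 := by decide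
    exact this _ h2 h3
  constructor
  · intro h2
    exact (V_axes (IsV_of_U (st_U hu h2).1)).1 h1
  · intro h2
    exact (V_axes (IsV_of_U (st_U hu h2).1)).1 h1

lemma G_north (d : P.FSt) (hd : IsDart d) : ((G d.facet ↔ ¬ pE.SameCycle u d.r2) ↔
    (G (retFun pN IsDart d).facet ↔ ¬ pE.SameCycle u (retFun pN IsDart d))) := by
  have he : ∀ j : ℕ, ((pN ^ j) d).1.e.1 = 0 := by
    intro j
    induction j with
    | zero => exact hd.2
    | succ j ih =>
      rw [pow_succ', Equiv.Perm.mul_apply, stN_e']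
      exact ih
  have key : ∀ j : ℕ, j ≤ retN pN IsDart d → ((G d.facet ↔ ¬ pE.SameCycle u d.r2) ↔
      (G ((pN ^ j) d).facet ↔ ¬ pE.SameCycle u ((pN ^ j) d).r2)) := by
    intro j
    induction j with
    | zero => intro _; exact Iff.rfl
    | succ j ih =>
      intro hj
      rw [ih (by omega), G_step hu hG]
      have h1 := retN_not (π := pN) (p := IsDart) (x := d) (j := j) (by omega)
      have h2 := not_cyc hu hG h1 (he (j + 1))
      have h3 : (pN ^ (j + 1)) d = ((pN ^ j) d).stN := by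
        rw [pow_succ', Equiv.Perm.mul_apply]; rfl
      rw [h3] at h2
      rw [h3]
      have h4 := h2.1
      have h5 := h2.2
      tauto
  rw [key _ le_rfl, G_step hu hG, retFun_eq]
  have h3 : (pN ^ (retN pN IsDart d + 1)) d = ((pN ^ retN pN IsDart d) d).stN := by
    rw [pow_succ', Equiv.Perm.mul_apply]; rfl
  rw [h3]

end

/-- **(S4)** In genus zero every ring separates: `F` is constant on the regions and changes exactly
across the ring of `d`. -/
theorem ring_sep (hG0 : GenusZero P) (d : Dart P) : ∃ F : Dart P → Prop,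
    (∀ e, F (phi P e) ↔ F e) ∧ (∀ e, F (theta P e) ↔ F e) ∧
    ∀ e, ¬ (F (r2D P e) ↔ F e) ↔
      ((phi P).SameCycle d e ∨ (phi P).SameCycle d (r2D P e)) := by
  have main : ∀ d : Dart P, IsW d.1 → ∃ F : Dart P → Prop,
      (∀ e, F (phi P e) ↔ F e) ∧ (∀ e, F (theta P e) ↔ F e) ∧
      ∀ e, ¬ (F (r2D P e) ↔ F e) ↔
        ((phi P).SameCycle d e ∨ (phi P).SameCycle d (r2D P e)) := by
    intro d hd
    have hu : IsU d.1 := hd
    obtain ⟨G, hG⟩ := hG0 (bot d.1) (bot_rev (u := d.1)) (bot_even hu)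
    refine ⟨fun e => (G e.1.facet ↔ ¬ pE.SameCycle d.1 e.1.r2), ?_, ?_, ?_⟩
    · intro e
      have h1 : pE.SameCycle e.1 (phi P e).1 :=
        (phi_same_iff P e (phi P e)).1 ((Equiv.Perm.sameCycle_apply_right (f := phi P)).2
          (Equiv.Perm.SameCycle.refl _ _))
      have hV : IsV e.1 := by
        rcases dart_cases P e with ⟨a, -⟩ | ⟨-, a⟩
        · exact IsV_of_U a
        · exact IsV_of_Ur a
      have h2 := G_same hu hG hV h1
      have h3 : pE.SameCycle d.1 (phi P e).1.r2 ↔ pE.SameCycle d.1 e.1.r2 := by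
        have h4 : pE.SameCycle e.1.r2 (phi P e).1.r2 := r2_same P h1
        exact ⟨fun h => h.trans h4.symm, fun h => h.trans h4⟩
      show (_ ↔ _) ↔ (_ ↔ _)
      rw [h2, h3]
    · intro e
      have h1 := G_north hu hG e.1 e.2
      show (G (theta P e).1.facet ↔ ¬ pE.SameCycle d.1 (theta P e).1.r2) ↔ _
      have h2 : (theta P e).1.facet = (retFun pN IsDart e.1).facet := rfl
      have h3 : (theta P e).1.r2 = retFun pN IsDart e.1 := FSt.r2_r2 _
      rw [h2, h3]
      exact h1.symm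
    · intro e
      rw [phi_same_iff, phi_same_iff]
      show ¬ ((G e.1.facet ↔ ¬ pE.SameCycle d.1 e.1.r2.r2) ↔
        (G e.1.facet ↔ ¬ pE.SameCycle d.1 e.1.r2)) ↔
        (pE.SameCycle d.1 e.1 ∨ pE.SameCycle d.1 e.1.r2)
      rw [FSt.r2_r2]
      have h1 : ¬ (pE.SameCycle d.1 e.1 ∧ pE.SameCycle d.1 e.1.r2) := by
        rintro ⟨h1, h2⟩
        exact not_U_Ur (st_U hu h1).1 (st_U hu h2).1
      tauto
  rcases dart_cases P d with ⟨a, -⟩ | ⟨-, a⟩
  · exact main d a
  · obtain ⟨F, h1, h2, h3⟩ := main (r2D P d) a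
    refine ⟨F, h1, h2, fun e => (h3 e).trans ?_⟩
    rw [phi_same_iff, phi_same_iff, phi_same_iff, phi_same_iff]
    have e1 : pE.SameCycle (r2D P d).1 e.1 ↔ pE.SameCycle d.1 (r2D P e).1 := by
      have := r2_same_iff P (s := (r2D P d).1) (t := e.1)
      have h5 : (r2D P d).1.r2 = d.1 := FSt.r2_r2 _
      rw [h5] at this
      exact this.symm
    have e2 : pE.SameCycle (r2D P d).1 (r2D P e).1 ↔ pE.SameCycle d.1 e.1 :=
      r2_same_iff P (s := d.1) (t := e.1)
    rw [e1, e2]
    exact or_comm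

end Pool.Agent.MP42NG
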